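import Pool.Agent.Helper56.RC.StF

/-!
# Project RC, certificate for 99/100: module VPRB (pair inequalities of option B)
-/

set_option autoImplicit false

open MeasureTheory Set Filter Metric

namespace Pool.Agent.Helper15.RC

open Helper49.LT Helper49.RC Helper87.RC Helper44.RC Helper56.RC

/-- upper bound of `|cos (a π/120)|` -/
def ckq (a : ℤ) : ℚ := |(cT a : ℚ)| / 10 ^ 6 + 1 / 10 ^ 5

theorem ckq_nonneg (a : ℤ) : (0 : ℝ) ≤ (ckq a : ℝ) := by
  unfold ckq
  push_cast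
  positivity

theorem cos_le (h : StTrg) (a : ℤ) : |Real.cos (a * Real.pi / 120)| ≤ (ckq a : ℝ) := by
  have h1 := h a
  have h2 : |Real.cos (a * Real.pi / 120)| ≤ |(cT a : ℝ) / 10 ^ 6| + 1 / 10 ^ 5 := by
    have h3 := abs_sub_abs_le_abs_sub (Real.cos (a * Real.pi / 120)) ((cT a : ℝ) / 10 ^ 6)
    linarith
  refine h2.trans (le_of_eq ?_)
  unfold ckq
  rw [abs_div]
  push_cast
  norm_num

/-- upper bound of `|K_j|` -/
def kq (j : ℤ) : ℚ := 4 / |(j : ℚ)| * ckq (40 * (1 + j) + 3 * j) * ckq (6 * j - 60)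

theorem KK_abs (j : ℤ) : |KK (Real.pi / 40) (Real.pi / 10) j| =
    4 / |(j : ℝ)| * |Real.cos (((40 * (1 + j) + 3 * j : ℤ) : ℝ) * Real.pi / 120)| *
      |Real.cos (((6 * j - 60 : ℤ) : ℝ) * Real.pi / 120)| := by
  have e1 : Real.pi * (1 + (j : ℝ)) / 3 + j * (Real.pi / 40) =
      ((40 * (1 + j) + 3 * j : ℤ) : ℝ) * Real.pi / 120 := by
    push_cast
    ring
  have e2 : Real.sin ((j : ℝ) * (Real.pi / 10) / 2) =
      Real.cos (((6 * j - 60 : ℤ) : ℝ) * Real.pi / 120) := by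
    rw [← Real.cos_sub_pi_div_two]
    congr 1
    push_cast
    ring
  unfold KK RR
  rw [e1, e2, abs_mul, abs_mul, abs_div, abs_of_pos (by norm_num : (0 : ℝ) < 4)]
  ring

theorem KK_le (h : StTrg) (j : ℤ) : |KK (Real.pi / 40) (Real.pi / 10) j| ≤ (kq j : ℝ) := by
  rw [KK_abs]
  unfold kq
  push_cast
  have h1 := cos_le h (40 * (1 + j) + 3 * j)
  have h2 := cos_le h (6 * j - 60)
  push_cast at h1 h2
  have h0 : (0 : ℝ) ≤ 4 / |(j : ℝ)| := by positivity
  have h3 := ckq_nonneg (40 * (1 + j) + 3 * j)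
  apply mul_le_mul (mul_le_mul_of_nonneg_left h1 h0) h2 (abs_nonneg _) (mul_nonneg h0 h3)

theorem KK_le' (j : ℤ) : |KK (Real.pi / 40) (Real.pi / 10) j| ≤ 4 / |(j : ℝ)| := by
  rw [KK_abs]
  have h0 : (0 : ℝ) ≤ 4 / |(j : ℝ)| := by positivity
  have h1 := Real.abs_cos_le_one (((40 * (1 + j) + 3 * j : ℤ) : ℝ) * Real.pi / 120)
  have h2 := Real.abs_cos_le_one (((6 * j - 60 : ℤ) : ℝ) * Real.pi / 120)
  calc 4 / |(j : ℝ)| * |Real.cos (((40 * (1 + j) + 3 * j : ℤ) : ℝ) * Real.pi / 120)| *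
        |Real.cos (((6 * j - 60 : ℤ) : ℝ) * Real.pi / 120)|
      ≤ 4 / |(j : ℝ)| * 1 * 1 :=
        mul_le_mul (mul_le_mul_of_nonneg_left h1 h0) h2 (abs_nonneg _) (mul_nonneg h0 zero_le_one)
    _ = 4 / |(j : ℝ)| := by ring

/-- rational weights of option B -/
def thq (m : ℤ) : ℚ :=
  if m = -8 then 5 / 4 else if m = -6 then 3 / 4 else if m = -4 then 7 / 4 else if m = -2 then 21 / 4 else
  if m = 0 then 11 / 4 else if m = 2 then 3 / 2 else if m = 4 then 13 / 4 else if m = 6 then 17 / 4 else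
  if m = 8 then 9 / 4 else if m = 10 then 3 / 2 else 1

theorem thB_eq (m : ℤ) : thB m = (thq m : ℝ) := by
  unfold thB thq
  split_ifs <;> norm_num

theorem thq_pos (m : ℤ) : 0 < thq m := by
  unfold thq
  split_ifs <;> norm_num

def wq (n m : ℤ) : ℚ := if n = 1 ∧ m = 4 then 2 else thq m

theorem wt_eq (n m : ℤ) : wt thB n m = (wq n m : ℝ) := by
  unfold wt wq
  split_ifs
  · norm_num
  · exact thB_eq m

theorem wq_pos (n m : ℤ) : 0 < wq n m := by
  unfold wq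
  split_ifs
  · norm_num
  · exact thq_pos m

def aq (n m : ℤ) : ℚ :=
  if n = 1 ∧ m = -2 then 0 else 19 / 20 * (if (m - n) ^ 2 = 9 then 11 / 10 else 1 / 10) * kq (n + m)

theorem aK_le (h : StTrg) (n m : ℤ) : aK (Real.pi / 40) (Real.pi / 10) n m ≤ (aq n m : ℝ) := by
  unfold aK aq
  have h1 := KK_le h (n + m)
  split_ifs
  · norm_num
  · push_cast
    exact mul_le_mul_of_nonneg_left h1 (by norm_num)
  · push_cast
    exact mul_le_mul_of_nonneg_left h1 (by norm_num)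

def vq (m : ℤ) : ℚ :=
  aq (m - 9) m / (4 * wq (m - 9) m) + aq (m - 3) m / (4 * wq (m - 3) m)
    + aq (m + 3) m / (4 * wq (m + 3) m) + aq (m + 9) m / (4 * wq (m + 9) m)

theorem vC_le (h : StTrg) (m : ℤ) : vC thB (Real.pi / 40) (Real.pi / 10) m ≤ (vq m : ℝ) := by
  unfold vC vq
  have key : ∀ n : ℤ, aK (Real.pi / 40) (Real.pi / 10) n m / (4 * wt thB n m) ≤
      ((aq n m / (4 * wq n m) : ℚ) : ℝ) := by
    intro n
    push_cast
    rw [wt_eq]
    have h1 : (0 : ℝ) < (wq n m : ℝ) := by exact_mod_cast wq_pos n m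
    exact div_le_div_of_nonneg_right (aK_le h n m) (by positivity)
  have h1 := key (m - 9)
  have h2 := key (m - 3)
  have h3 := key (m + 3)
  have h4 := key (m + 9)
  push_cast at h1 h2 h3 h4 ⊢
  linarith

/-- the value of `σ_m` -/
def sq (m : ℤ) : ℚ := 1 / 2 - 1 / 2 * ((cT (86 * m) : ℚ) / 10 ^ 6 * ((cT (12 * m) : ℚ) / 10 ^ 6))

theorem sgm_near (h : StTrg) (m : ℤ) : |sgm (Real.pi / 40) (Real.pi / 10) m - (sq m : ℝ)| ≤ 11 / 10 ^ 6 := by
  have h1 := h (86 * m)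
  have h2 := h (12 * m)
  have e1 : (2 : ℝ) * m * (Real.pi / 3 + Real.pi / 40) = ((86 * m : ℤ) : ℝ) * Real.pi / 120 := by
    push_cast
    ring
  have e2 : (m : ℝ) * (Real.pi / 10) = ((12 * m : ℤ) : ℝ) * Real.pi / 120 := by
    push_cast
    ring
  unfold sgm sq
  rw [e1, e2]
  push_cast at h1 h2 ⊢
  set X := Real.cos (86 * (m : ℝ) * Real.pi / 120) with hX
  set Y := Real.cos (12 * (m : ℝ) * Real.pi / 120) with hY
  set x := (cT (86 * m) : ℝ) / 10 ^ 6 with hx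
  set y := (cT (12 * m) : ℝ) / 10 ^ 6 with hy
  have hX1 : |X| ≤ 1 := Real.abs_cos_le_one _
  have hY1 : |Y| ≤ 1 := Real.abs_cos_le_one _
  have e3 : 1 / 2 - 1 / 2 * X * Y - (1 / 2 - 1 / 2 * (x * y)) =
      -(1 / 2) * (X * (Y - y) + (X - x) * Y - (X - x) * (Y - y)) := by ring
  have h3 : |X * (Y - y) + (X - x) * Y - (X - x) * (Y - y)| ≤ 1 / 10 ^ 5 + 1 / 10 ^ 5 + 1 / 10 ^ 10 := by
    have a1 : |X * (Y - y)| ≤ 1 * (1 / 10 ^ 5) := by
      rw [abs_mul]
      exact mul_le_mul hX1 h2 (abs_nonneg _) zero_le_one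
    have a2 : |(X - x) * Y| ≤ (1 / 10 ^ 5) * 1 := by
      rw [abs_mul]
      exact mul_le_mul h1 hY1 (abs_nonneg _) (by norm_num)
    have a3 : |(X - x) * (Y - y)| ≤ (1 / 10 ^ 5) * (1 / 10 ^ 5) := by
      rw [abs_mul]
      exact mul_le_mul h1 h2 (abs_nonneg _) (by norm_num)
    have a4 := abs_sub (X * (Y - y) + (X - x) * Y) ((X - x) * (Y - y))
    have a5 := abs_add_le (X * (Y - y)) ((X - x) * Y)
    have b1 : (1 : ℝ) * (1 / 10 ^ 5) = 1 / 10 ^ 5 := one_mul _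
    have b2 : (1 : ℝ) / 10 ^ 5 * 1 = 1 / 10 ^ 5 := mul_one _
    have b3 : (1 : ℝ) / 10 ^ 5 * (1 / 10 ^ 5) = 1 / 10 ^ 10 := by norm_num
    rw [b1] at a1
    rw [b2] at a2
    rw [b3] at a3
    linarith
  rw [e3, abs_mul]
  norm_num at h3 ⊢
  linarith

/-! ### kernel evaluations -/

theorem v2 : vq 2 ≤ 1453 / 10000 ∧ vq 0 ≤ 603 / 10000 := by decide +kernel
theorem v6 : vq 6 ≤ 132 / 10000 ∧ vq (-4) ≤ 349 / 10000 := by decide +kernel
theorem v8 : vq 8 ≤ 409 / 10000 ∧ vq (-6) ≤ 2234 / 10000 := by decide +kernel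
theorem v10 : vq 10 ≤ 128 / 10000 ∧ vq (-8) ≤ 397 / 10000 := by decide +kernel
theorem v12 : vq 12 ≤ 466 / 10000 ∧ vq (-10) ≤ 462 / 10000 := by decide +kernel
theorem q2 : 58408 / 100000 ≤ sq 2 ∧ sq 2 ≤ 58412 / 100000 := by decide +kernel
theorem q4 : 64113 / 100000 ≤ sq 4 ∧ sq 4 ≤ 64117 / 100000 := by decide +kernel
theorem q6 : 59080 / 100000 ≤ sq 6 ∧ sq 6 ≤ 59084 / 100000 := by decide +kernel
theorem q8 : 77065 / 100000 ≤ sq 8 ∧ sq 8 ≤ 77069 / 100000 := by decide +kernel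
theorem q10 : 6697 / 100000 ≤ sq 10 ∧ sq 10 ≤ 6701 / 100000 := by decide +kernel
theorem q12 : 37498 / 100000 ≤ sq 12 ∧ sq 12 ≤ 37502 / 100000 := by decide +kernel
theorem c433 : ckq 433 ≤ 33382 / 100000 ∧ ckq 6 ≤ 98770 / 100000 := by decide +kernel
theorem c341 : ckq 341 ≤ 87884 / 100000 ∧ ckq (-18) ≤ 89102 / 100000 := by decide +kernel

theorem vC_num (h : StTrg) {m : ℤ} {r : ℚ} (hr : vq m ≤ r) :
    vC thB (Real.pi / 40) (Real.pi / 10) m ≤ (r : ℝ) :=
  (vC_le h m).trans (by exact_mod_cast hr)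

theorem sgm_num (h : StTrg) {m : ℤ} {r r' : ℚ} (hr : r ≤ sq m ∧ sq m ≤ r') :
    (r : ℝ) - 11 / 10 ^ 6 ≤ sgm (Real.pi / 40) (Real.pi / 10) m ∧
      sgm (Real.pi / 40) (Real.pi / 10) m ≤ (r' : ℝ) + 11 / 10 ^ 6 := by
  have h1 := abs_le.1 (sgm_near h m)
  have h2 : (r : ℝ) ≤ (sq m : ℝ) := by exact_mod_cast hr.1
  have h3 : (sq m : ℝ) ≤ (r' : ℝ) := by exact_mod_cast hr.2
  constructor <;> linarith [h1.1, h1.2]

theorem quad0 {x y a b : ℝ} (h1 : 0 < a) (h2 : (8068 / 10000) ^ 2 ≤ 4 * a * b) :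
    0 ≤ a * x ^ 2 + b * y ^ 2 - 8068 / 10000 * (x * y) := by
  have h3 : 0 ≤ 4 * a * (a * x ^ 2 + b * y ^ 2 - 8068 / 10000 * (x * y)) := by
    have e : 4 * a * (a * x ^ 2 + b * y ^ 2 - 8068 / 10000 * (x * y)) =
        (2 * a * x - 8068 / 10000 * y) ^ 2 + (4 * a * b - (8068 / 10000) ^ 2) * y ^ 2 := by ring
    rw [e]
    have := mul_nonneg (sub_nonneg.2 h2) (sq_nonneg y)
    positivity
  exact nonneg_of_mul_nonneg_right h3 (by positivity)

theorem F_low : (8068 : ℝ) / 10000 ≤ (FSc (1 / 20) (33 / 200) - 1 / 25) * (47 / 100) := by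
  unfold FSc
  have h3 : (1732 : ℝ) / 1000 ≤ Real.sqrt 3 := Real.le_sqrt_of_sq_le (by norm_num)
  linarith

theorem re_low (v v' : ℂ) : -(‖v‖ * ‖v'‖) ≤ (v * v').re := by
  have h1 := Complex.abs_re_le_norm (v * v')
  rw [norm_mul] at h1
  exact (abs_le.1 h1).1

/-- the quadratic form of a pair -/
theorem form_low (v v' : ℂ) : 8068 / 10000 * (‖v‖ ^ 2 + ‖v'‖ ^ 2 - ‖v‖ * ‖v'‖) ≤
    (FSc (1 / 20) (33 / 200) - 1 / 25) * (47 / 100) * (‖v‖ ^ 2 + ‖v'‖ ^ 2 + (v * v').re) := by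
  have h1 := F_low
  have h2 := re_low v v'
  have h3 : 0 ≤ ‖v‖ ^ 2 + ‖v'‖ ^ 2 - ‖v‖ * ‖v'‖ := by
    nlinarith [sq_nonneg (‖v‖ - ‖v'‖), norm_nonneg v, norm_nonneg v', sq_nonneg (‖v‖ + ‖v'‖)]
  calc 8068 / 10000 * (‖v‖ ^ 2 + ‖v'‖ ^ 2 - ‖v‖ * ‖v'‖)
      ≤ (FSc (1 / 20) (33 / 200) - 1 / 25) * (47 / 100) * (‖v‖ ^ 2 + ‖v'‖ ^ 2 - ‖v‖ * ‖v'‖) :=
        mul_le_mul_of_nonneg_right h1 h3
    _ ≤ _ := by
        apply mul_le_mul_of_nonneg_left _ (by linarith)
        linarith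

theorem pair_case (k : ℕ) (v v' : ℂ) {P Q : ℝ} {s V S V' : ℝ}
    (hP : P ≤ 19 / 20 * (4 * s / (2 * k + 2)) - V)
    (hQ : (if k = 0 then 0 else 19 / 20 * (4 * S / (2 * k))) + V' ≤ Q)
    (h1 : 0 < 8068 / 10000 + P) (h2 : (8068 / 10000) ^ 2 ≤ 4 * (8068 / 10000 + P) * (8068 / 10000 - Q)) :
    0 + V * ‖v‖ ^ 2 + V' * ‖v'‖ ^ 2
      ≤ (FSc (1 / 20) (33 / 200) - 1 / 25) * (47 / 100) * (‖v‖ ^ 2 + ‖v'‖ ^ 2 + (v * v').re)
        + 19 / 20 * (4 * s / (2 * k + 2)) * ‖v‖ ^ 2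
        - (if k = 0 then 0 else 19 / 20 * (4 * S / (2 * k)) * ‖v'‖ ^ 2) := by
  have h3 := form_low v v'
  have h4 := quad0 (x := ‖v‖) (y := ‖v'‖) h1 h2
  have h5 := mul_le_mul_of_nonneg_right hP (sq_nonneg ‖v‖)
  have h6 := mul_le_mul_of_nonneg_right hQ (sq_nonneg ‖v'‖)
  have h7 : (if k = 0 then 0 else 19 / 20 * (4 * S / (2 * k)) * ‖v'‖ ^ 2) =
      (if k = 0 then 0 else 19 / 20 * (4 * S / (2 * (k : ℝ)))) * ‖v'‖ ^ 2 := by
    split_ifs
    · simp
    · rfl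
  rw [h7]
  nlinarith

theorem ck_num (h : StTrg) {a : ℤ} {r : ℚ} (hr : ckq a ≤ r) : |Real.cos (a * Real.pi / 120)| ≤ (r : ℝ) :=
  (cos_le h a).trans (by exact_mod_cast hr)

theorem l10_le (h : StTrg) : l10 (Real.pi / 40) (Real.pi / 10) ≤ 114 / 10000 := by
  have e1 : 10 * Real.pi / 3 + 11 * (Real.pi / 40) = ((433 : ℤ) : ℝ) * Real.pi / 120 := by
    push_cast
    ring
  have e2 : Real.sin (11 * (Real.pi / 10) / 2) = Real.cos (((6 : ℤ) : ℝ) * Real.pi / 120) := by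
    rw [← Real.cos_sub_pi_div_two]
    congr 1
    push_cast
    ring
  have h1 : |Real.cos (((433 : ℤ) : ℝ) * Real.pi / 120)| ≤ 33382 / 100000 :=
    (ck_num h c433.1).trans (le_of_eq (by norm_num))
  have h2 : |Real.cos (((6 : ℤ) : ℝ) * Real.pi / 120)| ≤ 98770 / 100000 :=
    (ck_num h c433.2).trans (le_of_eq (by norm_num))
  unfold l10
  rw [e1, e2, abs_mul, abs_mul]
  have h3 : |Real.cos (((433 : ℤ) : ℝ) * Real.pi / 120)| * |Real.cos (((6 : ℤ) : ℝ) * Real.pi / 120)| ≤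
      33382 / 100000 * (98770 / 100000) := mul_le_mul h1 h2 (abs_nonneg _) (by norm_num)
  have h4 : |(4 : ℝ) / 11| = 4 / 11 := abs_of_pos (by norm_num)
  rw [h4]
  nlinarith

theorem l8_le (h : StTrg) : l8 (Real.pi / 40) (Real.pi / 10) ≤ 4252 / 100000 := by
  have e1 : 8 * Real.pi / 3 + 7 * (Real.pi / 40) = ((341 : ℤ) : ℝ) * Real.pi / 120 := by
    push_cast
    ring
  have e2 : Real.sin (7 * (Real.pi / 10) / 2) = Real.cos (((-18 : ℤ) : ℝ) * Real.pi / 120) := by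
    rw [← Real.cos_sub_pi_div_two]
    congr 1
    push_cast
    ring
  have h1 : |Real.cos (((341 : ℤ) : ℝ) * Real.pi / 120)| ≤ 87884 / 100000 :=
    (ck_num h c341.1).trans (le_of_eq (by norm_num))
  have h2 : |Real.cos (((-18 : ℤ) : ℝ) * Real.pi / 120)| ≤ 89102 / 100000 :=
    (ck_num h c341.2).trans (le_of_eq (by norm_num))
  unfold l8
  rw [e1, e2, abs_mul, abs_mul]
  have h3 : |Real.cos (((341 : ℤ) : ℝ) * Real.pi / 120)| * |Real.cos (((-18 : ℤ) : ℝ) * Real.pi / 120)| ≤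
      87884 / 100000 * (89102 / 100000) := mul_le_mul h1 h2 (abs_nonneg _) (by norm_num)
  have h4 : |(4 : ℝ) / 7| = 4 / 7 := abs_of_pos (by norm_num)
  rw [h4]
  nlinarith

/-- crude bound for large indices -/
theorem vC_far (m : ℤ) (h1 : 12 ≤ |m|) : vC thB (Real.pi / 40) (Real.pi / 10) m ≤ 1123 / 10000 := by
  have hm : m ≤ -12 ∨ 12 ≤ m := by
    rcases le_total 0 m with h | h
    · rw [abs_of_nonneg h] at h1
      exact Or.inr h1
    · rw [abs_of_nonpos h] at h1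
      exact Or.inl (by linarith)
  have hw : ∀ n : ℤ, wt thB n m = 1 := by
    intro n
    have h4 : ¬ (n = 1 ∧ m = 4) := by rintro ⟨-, h⟩; omega
    unfold wt thB
    rw [if_neg h4]
    split_ifs <;> first | rfl | omega
  have hK : ∀ (j : ℤ) (a : ℝ), 0 < a → a ≤ |(j : ℝ)| → |KK (Real.pi / 40) (Real.pi / 10) j| ≤ 4 / a := by
    intro j a ha hj
    exact (KK_le' j).trans (div_le_div_of_nonneg_left (by norm_num) ha hj)
  have habs : ∀ (e : ℤ) (a : ℤ), -9 ≤ e → e ≤ 9 → a + |e| ≤ 24 → (a : ℝ) ≤ |((m + e + m : ℤ) : ℝ)| := by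
    intro e a he1 he2 hae
    rw [← Int.cast_abs]
    have : a ≤ |m + e + m| := by
      rcases abs_cases e with h5 | h5 <;> rcases abs_cases (m + e + m) with h6 | h6 <;>
        rcases hm with h7 | h7 <;> omega
    exact_mod_cast this
  have ha : ∀ (n : ℤ) (c b : ℝ), 0 ≤ c → aK (Real.pi / 40) (Real.pi / 10) n m ≤ 19 / 20 * c * b →
      aK (Real.pi / 40) (Real.pi / 10) n m / (4 * wt thB n m) ≤ 19 / 80 * c * b := by
    intro n c b _ h8
    rw [hw n]
    linarith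
  have g1 : aK (Real.pi / 40) (Real.pi / 10) (m - 9) m ≤ 19 / 20 * (1 / 10) * (4 / 15) := by
    unfold aK
    have h9 : ¬ (m - 9 = 1 ∧ m = -2) := by rintro ⟨h, h'⟩; omega
    have h10 : ¬ ((m - (m - 9)) ^ 2 = 9) := by
      have : m - (m - 9) = 9 := by ring
      rw [this]
      norm_num
    rw [if_neg h9, if_neg h10]
    apply mul_le_mul_of_nonneg_left _ (by norm_num)
    apply hK _ 15 (by norm_num)
    have := habs (-9) 15 (by norm_num) (by norm_num) (by norm_num)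
    rw [show m - 9 + m = m + -9 + m by ring]
    exact_mod_cast this
  have g2 : aK (Real.pi / 40) (Real.pi / 10) (m - 3) m ≤ 19 / 20 * (11 / 10) * (4 / 21) := by
    unfold aK
    have h9 : ¬ (m - 3 = 1 ∧ m = -2) := by rintro ⟨h, h'⟩; omega
    have h10 : (m - (m - 3)) ^ 2 = 9 := by
      have : m - (m - 3) = 3 := by ring
      rw [this]
      norm_num
    rw [if_neg h9, if_pos h10]
    apply mul_le_mul_of_nonneg_left _ (by norm_num)
    apply hK _ 21 (by norm_num)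
    have := habs (-3) 21 (by norm_num) (by norm_num) (by norm_num)
    rw [show m - 3 + m = m + -3 + m by ring]
    exact_mod_cast this
  have g3 : aK (Real.pi / 40) (Real.pi / 10) (m + 3) m ≤ 19 / 20 * (11 / 10) * (4 / 21) := by
    unfold aK
    have h9 : ¬ (m + 3 = 1 ∧ m = -2) := by rintro ⟨h, h'⟩; omega
    have h10 : (m - (m + 3)) ^ 2 = 9 := by
      have : m - (m + 3) = -3 := by ring
      rw [this]
      norm_num
    rw [if_neg h9, if_pos h10]
    apply mul_le_mul_of_nonneg_left _ (by norm_num)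
    apply hK _ 21 (by norm_num)
    have := habs 3 21 (by norm_num) (by norm_num) (by norm_num)
    exact_mod_cast this
  have g4 : aK (Real.pi / 40) (Real.pi / 10) (m + 9) m ≤ 19 / 20 * (1 / 10) * (4 / 15) := by
    unfold aK
    have h9 : ¬ (m + 9 = 1 ∧ m = -2) := by rintro ⟨h, h'⟩; omega
    have h10 : ¬ ((m - (m + 9)) ^ 2 = 9) := by
      have : m - (m + 9) = -9 := by ring
      rw [this]
      norm_num
    rw [if_neg h9, if_neg h10]
    apply mul_le_mul_of_nonneg_left _ (by norm_num)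
    apply hK _ 15 (by norm_num)
    have := habs 9 15 (by norm_num) (by norm_num) (by norm_num)
    exact_mod_cast this
  have t1 := ha _ _ _ (by norm_num) g1
  have t2 := ha _ _ _ (by norm_num) g2
  have t3 := ha _ _ _ (by norm_num) g3
  have t4 := ha _ _ _ (by norm_num) g4
  unfold vC
  norm_num at t1 t2 t3 t4 ⊢
  linarith

theorem sgm_bd (m : ℤ) : 0 ≤ sgm (Real.pi / 40) (Real.pi / 10) m ∧
    sgm (Real.pi / 40) (Real.pi / 10) m ≤ 1 := by
  unfold sgm
  have h1 := Real.abs_cos_le_one (2 * (m : ℝ) * (Real.pi / 3 + Real.pi / 40))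
  have h2 := Real.abs_cos_le_one ((m : ℝ) * (Real.pi / 10))
  have h3 : |Real.cos (2 * (m : ℝ) * (Real.pi / 3 + Real.pi / 40)) * Real.cos ((m : ℝ) * (Real.pi / 10))| ≤ 1 := by
    rw [abs_mul]
    exact mul_le_one₀ h1 (abs_nonneg _) h2
  have h4 := abs_le.1 h3
  constructor <;> linarith [h4.1, h4.2]

theorem case4 {x y V V' s S t : ℝ} (hx : 0 ≤ x) (hy : 0 ≤ y) (hV : V ≤ 128 / 10000) (hV' : V' ≤ 397 / 10000)
    (hs : 254 / 10000 ≤ s) (hS : S ≤ 3662 / 10000) (ht : 8068 / 10000 * (x ^ 2 + y ^ 2 - x * y) ≤ t)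
    {a b : ℝ} (ha : a ≤ 114 / 10000) (hb : b ≤ 4252 / 100000) :
    a * x + b * y - 3 / 1000 + V * x ^ 2 + V' * y ^ 2 ≤ t + s * x ^ 2 - S * y ^ 2 := by
  have h1 : 114 / 10000 * x + 4252 / 100000 * y - 3 / 1000 + 128 / 10000 * x ^ 2 + 397 / 10000 * y ^ 2 ≤
      8068 / 10000 * (x ^ 2 + y ^ 2 - x * y) + 254 / 10000 * x ^ 2 - 3662 / 10000 * y ^ 2 := by
    have e : 4 * (8194 / 10000 : ℝ) * (8068 / 10000 * (x ^ 2 + y ^ 2 - x * y) + 254 / 10000 * x ^ 2
          - 3662 / 10000 * y ^ 2 - (114 / 10000 * x + 4252 / 100000 * y - 3 / 1000 + 128 / 10000 * x ^ 2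
          + 397 / 10000 * y ^ 2)) =
        (2 * (8194 / 10000) * x - 8068 / 10000 * y - 114 / 10000) ^ 2
        + (4 * (8194 / 10000) * (4009 / 10000) - (8068 / 10000) ^ 2) * y ^ 2
        - (4 * (8194 / 10000) * (4252 / 100000) + 2 * (8068 / 10000) * (114 / 10000)) * y
        + (4 * (8194 / 10000) * (3 / 1000) - (114 / 10000) ^ 2) := by ring
    have h2 : 0 ≤ (4 * (8194 / 10000) * (4009 / 10000) - (8068 / 10000) ^ 2) * y ^ 2
        - (4 * (8194 / 10000) * (4252 / 100000) + 2 * (8068 / 10000) * (114 / 10000)) * y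
        + (4 * (8194 / 10000) * (3 / 1000) - (114 / 10000) ^ 2 : ℝ) := by
      nlinarith [sq_nonneg (y - 119 / 1000)]
    nlinarith [sq_nonneg (2 * (8194 / 10000) * x - 8068 / 10000 * y - 114 / 10000)]
  have h3 := mul_le_mul_of_nonneg_right ha hx
  have h4 := mul_le_mul_of_nonneg_right hb hy
  have h5 := mul_le_mul_of_nonneg_right hV (sq_nonneg x)
  have h6 := mul_le_mul_of_nonneg_right hV' (sq_nonneg y)
  have h7 := mul_le_mul_of_nonneg_right hs (sq_nonneg x)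
  have h8 := mul_le_mul_of_nonneg_right hS (sq_nonneg y)
  linarith

theorem hVPRB (h : StTrg) : StVprB := by
  intro k v v' hk
  have hv := norm_nonneg v
  have hv' := norm_nonneg v'
  by_cases h4 : k = 4
  · subst h4
    rw [if_pos rfl, if_neg (by norm_num)]
    have e1 : (2 * ((4 : ℕ) : ℤ) + 2) = 10 := by norm_num
    have e2 : (-(2 * ((4 : ℕ) : ℤ))) = -8 := by norm_num
    have e3 : (2 * ((4 : ℕ) : ℤ)) = 8 := by norm_num
    rw [e1, e2, e3]
    have hV := (vC_num h v10.1).trans (le_of_eq (by norm_num : ((128 / 10000 : ℚ) : ℝ) = 128 / 10000))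
    have hV' := (vC_num h v10.2).trans (le_of_eq (by norm_num : ((397 / 10000 : ℚ) : ℝ) = 397 / 10000))
    have hs := (sgm_num h q10).1
    have hS := (sgm_num h q8).2
    push_cast at hs hS
    apply case4 hv hv' hV hV' _ _ (form_low v v') (l10_le h) (l8_le h)
    · norm_num at hs ⊢
      linarith
    · norm_num at hS ⊢
      linarith
  · rw [if_neg h4]
    have hcase : k = 0 ∨ k = 2 ∨ k = 3 ∨ k = 5 ∨ 6 ≤ k := by omega
    rcases hcase with h0 | h0 | h0 | h0 | h0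
    · subst h0
      have e1 : (2 * ((0 : ℕ) : ℤ) + 2) = 2 := by norm_num
      have e2 : (-(2 * ((0 : ℕ) : ℤ))) = 0 := by norm_num
      rw [e1, e2]
      have hV := (vC_num h v2.1).trans (le_of_eq (by norm_num : ((1453 / 10000 : ℚ) : ℝ) = 1453 / 10000))
      have hV' := (vC_num h v2.2).trans (le_of_eq (by norm_num : ((603 / 10000 : ℚ) : ℝ) = 603 / 10000))
      have hs := (sgm_num h q2).1
      push_cast at hs
      apply pair_case 0 v v' (P := 9643 / 10000) (Q := 603 / 10000)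
      · norm_num at hs ⊢
        linarith
      · rw [if_pos rfl]
        linarith
      · norm_num
      · norm_num
    · subst h0
      have e1 : (2 * ((2 : ℕ) : ℤ) + 2) = 6 := by norm_num
      have e2 : (-(2 * ((2 : ℕ) : ℤ))) = -4 := by norm_num
      have e3 : (2 * ((2 : ℕ) : ℤ)) = 4 := by norm_num
      rw [e1, e2, e3]
      have hV := (vC_num h v6.1).trans (le_of_eq (by norm_num : ((132 / 10000 : ℚ) : ℝ) = 132 / 10000))
      have hV' := (vC_num h v6.2).trans (le_of_eq (by norm_num : ((349 / 10000 : ℚ) : ℝ) = 349 / 10000))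
      have hs := (sgm_num h q6).1
      have hS := (sgm_num h q4).2
      push_cast at hs hS
      apply pair_case 2 v v' (P := 3609 / 10000) (Q := 6442 / 10000)
      · norm_num at hs ⊢
        linarith
      · rw [if_neg (by norm_num)]
        norm_num at hS ⊢
        linarith
      · norm_num
      · norm_num
    · subst h0
      have e1 : (2 * ((3 : ℕ) : ℤ) + 2) = 8 := by norm_num
      have e2 : (-(2 * ((3 : ℕ) : ℤ))) = -6 := by norm_num
      have e3 : (2 * ((3 : ℕ) : ℤ)) = 6 := by norm_num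
      rw [e1, e2, e3]
      have hV := (vC_num h v8.1).trans (le_of_eq (by norm_num : ((409 / 10000 : ℚ) : ℝ) = 409 / 10000))
      have hV' := (vC_num h v8.2).trans (le_of_eq (by norm_num : ((2234 / 10000 : ℚ) : ℝ) = 2234 / 10000))
      have hs := (sgm_num h q8).1
      have hS := (sgm_num h q6).2
      push_cast at hs hS
      apply pair_case 3 v v' (P := 3250 / 10000) (Q := 5978 / 10000)
      · norm_num at hs ⊢
        linarith
      · rw [if_neg (by norm_num)]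
        norm_num at hS ⊢
        linarith
      · norm_num
      · norm_num
    · subst h0
      have e1 : (2 * ((5 : ℕ) : ℤ) + 2) = 12 := by norm_num
      have e2 : (-(2 * ((5 : ℕ) : ℤ))) = -10 := by norm_num
      have e3 : (2 * ((5 : ℕ) : ℤ)) = 10 := by norm_num
      rw [e1, e2, e3]
      have hV := (vC_num h v12.1).trans (le_of_eq (by norm_num : ((466 / 10000 : ℚ) : ℝ) = 466 / 10000))
      have hV' := (vC_num h v12.2).trans (le_of_eq (by norm_num : ((462 / 10000 : ℚ) : ℝ) = 462 / 10000))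
      have hs := (sgm_bd 12).1
      have hS := (sgm_num h q10).2
      push_cast at hS
      apply pair_case 5 v v' (P := -466 / 10000) (Q := 718 / 10000)
      · norm_num at hs ⊢
        linarith
      · rw [if_neg (by norm_num)]
        norm_num at hS ⊢
        linarith
      · norm_num
      · norm_num
    · have hV := vC_far (2 * (k : ℤ) + 2) (by
        rw [abs_of_nonneg (by positivity)]
        have : (6 : ℤ) ≤ k := by exact_mod_cast h0
        omega)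
      have hV' := vC_far (-(2 * (k : ℤ))) (by
        rw [abs_neg, abs_of_nonneg (by positivity)]
        have : (6 : ℤ) ≤ k := by exact_mod_cast h0
        omega)
      have hs := (sgm_bd (2 * (k : ℤ) + 2)).1
      have hS := (sgm_bd (2 * (k : ℤ))).2
      have hS0 := (sgm_bd (2 * (k : ℤ))).1
      have hk6 : (6 : ℝ) ≤ k := by exact_mod_cast h0
      apply pair_case k v v' (P := -1123 / 10000) (Q := 4290 / 10000)
      · have h5 : 0 ≤ 19 / 20 * (4 * sgm (Real.pi / 40) (Real.pi / 10) (2 * (k : ℤ) + 2) / (2 * (k : ℝ) + 2)) := by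
          positivity
        linarith
      · rw [if_neg (by omega)]
        have h5 : 4 * sgm (Real.pi / 40) (Real.pi / 10) (2 * (k : ℤ)) / (2 * (k : ℝ)) ≤ 4 / 12 := by
          rw [div_le_div_iff₀ (by positivity) (by norm_num)]
          nlinarith
        linarith
      · norm_num
      · norm_num

end Pool.Agent.Helper15.RC
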